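import Pool.Agent.Helper51.CX.St

set_option autoImplicit false

namespace Pool.Agent.Helper10.CX

open Module Pool.Agent.Helper51.CX

theorem hPOL : StPOL := by
  intro K _ _ _ z
  have h1 : z ∈ Pool.Agent.Helper4.CD.Poly (cc K) (rr K) ↔ ∀ n, rr K n ≤ cc K n z := Iff.rfl
  rw [h1, forall_rows (fun l r => r ≤ l z)]
  simp only [VR_apply, RX_apply, RY_apply, RZ_apply]
  constructor
  · rintro ⟨hv, a1, a2, b1, b2, c1, c2, d1, d2, e1, e2⟩
    refine ⟨fun k hk => ?_, ?_, ?_, ?_, ?_, ?_⟩
    · have := hv k hk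
      linarith
    · exact abs_le.2 ⟨by linarith, by linarith⟩
    · exact abs_le.2 ⟨by linarith, by linarith⟩
    · exact abs_le.2 ⟨by linarith, by linarith⟩
    · exact abs_le.2 ⟨by linarith, by linarith⟩
    · exact abs_le.2 ⟨by linarith, by linarith⟩
  · rintro ⟨hv, hx, hy, h2, h3, h4⟩
    have hx' := abs_le.1 hx
    have hy' := abs_le.1 hy
    have h2' := abs_le.1 h2
    have h3' := abs_le.1 h3
    have h4' := abs_le.1 h4
    refine ⟨fun k hk => ?_, ?_, ?_, ?_, ?_, ?_, ?_, ?_, ?_, ?_, ?_⟩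
    · have := hv k hk
      linarith
    · linarith [hx'.2]
    · linarith [hx'.1]
    · linarith [hy'.2]
    · linarith [hy'.1]
    · linarith [h2'.2]
    · linarith [h2'.1]
    · linarith [h3'.2]
    · linarith [h3'.1]
    · linarith [h4'.2]
    · linarith [h4'.1]

end Pool.Agent.Helper10.CX
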